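import Mathlib
import Pool.Agent.KS6_67.Irr.Spectrum

/-!
# MP_696765_co: irreducible Cayley graphs have every chromatic number, with large odd girth

Q1 and Q2 ask for a finite bound for the chromatic numbers of the Cayley graphs `X(G,H)` with `H` a
quasi-irreducible, respectively an irreducible, generating set of `G`.

(1) *Universality.* Let `K` be a finite group with a generating set `S` and let `n` be a number.
There are a finite group `P` and an irreducible generating set `H` of `P × K` which is mapped onto
`S` by the projection to `K` (so that `X(P × K, H)` maps homomorphically to `X(K, S)`), such that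
every homomorphism `c` of `X(P × K, H)` to a graph `T` with at most `n` vertices is a homomorphism
of `X(K, S)` to `T` on some coset `{p} × K`. So as far as homomorphisms to graphs with at most `n`
vertices are concerned (in particular colourings with at most `n` colours) every finite Cayley graph
is equivalent to a Cayley graph of an irreducible generating set.

(2) For all `m ≥ 2` and `g` there is a finite group with an irreducible (and quasi-irreducible)
generating set whose Cayley graph has chromatic number exactly `m` and all of whose odd closed
walks are longer than `g`. The value `1` is attained by the trivial group.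

(3) The same with groups of every infinite cardinality `κ`.

Proof of (1).  By the earlier answer to Q2 (`IrreducibleUnbounded`) there are irreducible generating
sets with arbitrarily large chromatic number.  Take the direct product of such groups `G_1, …, G_r`,
the chromatic number of each being large compared with the product of the orders of the previous
ones; label the generators in the `i`-th factor by the `i`-th element of `S`.  A colouring by
functions `K → V(T)` has a colour class `f` which contains edges of all labels, and then `f` is a
homomorphism from `X(K, S)` to `T`.  The generators `(h, label of h)` generate `P × K` because there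
are generators of order two and of order three of every label.

For (2) take `K` a subgroup of `(ℤ/2)^N × ℤ/m` and `S` the set of all `(e_u + e_v, z)`, `uv` an edge
of a graph with large girth and chromatic number, `z ≠ 0`.
-/

set_option autoImplicit false

namespace Pool.Agent.Results.MP_696765_co.EveryChromaticNumber

open Cardinal

/-- The Cayley graph `X(G,H)`: the vertex set is `G` and the edges are the unordered pairs
`{g, h * g}` with `g ∈ G` and `h ∈ H` (loops are left out). -/
def CayleyGraph {G : Type*} [Group G] (H : Set G) : SimpleGraph G where
  Adj g g' := g ≠ g' ∧ ∃ h ∈ H, g' = h * g ∨ g = h * g'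
  symm := ⟨fun _ _ ⟨hne, h, hH, hor⟩ => ⟨hne.symm, h, hH, hor.symm⟩⟩
  loopless := ⟨fun _ h => h.1 rfl⟩

/-- `H` is an irreducible generating set: it generates the group and, for every `h ∈ H`,
the set `H` without `h` does not. -/
def IsIrreducible {G : Type*} [Group G] (H : Set G) : Prop :=
  Subgroup.closure H = ⊤ ∧ ∀ h ∈ H, Subgroup.closure (H \ {h}) ≠ ⊤

/-- `H` is a quasi-irreducible generating set: it generates the group and has a well-ordering such
that no element of `H` lies in the subgroup generated by the elements preceding it. -/
def IsQuasiIrreducible {G : Type*} [Group G] (H : Set G) : Prop :=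
  Subgroup.closure H = ⊤ ∧ ∃ r : H → H → Prop, IsWellOrder H r ∧
    ∀ h : H, (h : G) ∉ Subgroup.closure (Subtype.val '' {h' : H | r h' h})

theorem one_notMem {G : Type*} [Group G] {H : Set G} (hH : IsIrreducible H) : (1 : G) ∉ H :=
  Pool.Agent.Results.MP_696765_co.IrreducibleUnbounded.one_notMem_of_irreducible hH

theorem quasi_of_irreducible {G : Type*} [Group G] {H : Set G} (hH : IsIrreducible H) :
    IsQuasiIrreducible H := by
  refine ⟨hH.1, WellOrderingRel, inferInstance, ?_⟩
  intro h hmem
  apply hH.2 h h.2
  have hle : Subgroup.closure (Subtype.val '' {h' : H | WellOrderingRel h' h}) ≤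
      Subgroup.closure (H \ {(h : G)}) := by
    apply Subgroup.closure_mono
    rintro x ⟨h', hh', rfl⟩
    refine ⟨h'.2, ?_⟩
    intro heq
    have : h' = h := Subtype.ext heq
    rw [this] at hh'
    exact irrefl_of (WellOrderingRel (α := H)) h hh'
  rw [eq_top_iff, ← hH.1, Subgroup.closure_le]
  intro y hy
  by_cases hyh : y = h
  · rw [hyh]; exact hle hmem
  · exact Subgroup.subset_closure ⟨hy, hyh⟩

/-- **Theorem.** (1) For every finite group `K`, every generating set `S` of `K` and every `n` there
are a finite group `P` and an irreducible generating set `H` of `P × K` with projection `S` to `K`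
such that every homomorphism `c` from `X(P × K, H)` to a graph `T` with at most `n` vertices
restricts to a homomorphism from `X(K, S)` to `T` on `{p} × K` for some `p`.
(2) For every `m ≥ 2` and every `g` there are a finite group `G` and a generating set `H` of `G`,
irreducible and quasi-irreducible, `1 ∉ H`, such that `X(G, H)` has chromatic number exactly `m` and
every closed walk of odd length (in particular every odd cycle) in it is longer than `g`.
(3) The same holds with a group `G` of any prescribed infinite cardinality `κ`. -/
theorem result :
    (∀ (K : Type) [Group K] [Finite K] (S : Set K), Subgroup.closure S = ⊤ → ∀ n : ℕ,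
      ∃ (P : Type) (_ : Group P) (_ : Finite P) (H : Set (P × K)),
        IsIrreducible H ∧ Prod.snd '' H = S ∧
        ∀ (V : Type) [Finite V] (T : SimpleGraph V), Nat.card V ≤ n →
          ∀ c : CayleyGraph H →g T, ∃ p : P, ∀ k k' : K,
            (CayleyGraph S).Adj k k' → T.Adj (c (p, k)) (c (p, k'))) ∧
    (∀ m g : ℕ, 2 ≤ m → ∃ (G : Type) (_ : Group G) (_ : Finite G) (H : Set G),
      (1 : G) ∉ H ∧ IsIrreducible H ∧ IsQuasiIrreducible H ∧
      (CayleyGraph H).chromaticNumber = m ∧
      ∀ (x : G) (p : (CayleyGraph H).Walk x x), Odd p.length → g < p.length) ∧
    (∀ κ : Cardinal.{0}, ℵ₀ ≤ κ → ∀ m g : ℕ, 2 ≤ m →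
      ∃ (G : Type) (_ : Group G) (H : Set G), #G = κ ∧
      (1 : G) ∉ H ∧ IsIrreducible H ∧ IsQuasiIrreducible H ∧
      (CayleyGraph H).chromaticNumber = m ∧
      ∀ (x : G) (p : (CayleyGraph H).Walk x x), Odd p.length → g < p.length) := by
  refine ⟨?_, ?_, ?_⟩
  · intro K _ _ S hS n
    obtain ⟨P, i1, i2, H, hirr, hHS, huniv⟩ := Pool.Agent.KS6_67.Irr.universal K S hS n
    refine ⟨P, i1, i2, H, hirr, hHS, ?_⟩
    intro V _ T hV c
    exact huniv V T hV c (fun a b hab => c.map_adj hab)
  · intro m g hm
    obtain ⟨G, i1, i2, H, hirr, h1, h2⟩ := Pool.Agent.KS6_67.Irr.finite_spectrum m g hm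
    exact ⟨G, i1, i2, H, one_notMem hirr, hirr, quasi_of_irreducible hirr, h1, h2⟩
  · intro κ hκ m g hm
    obtain ⟨G, i1, H, h0, hirr, h1, h2⟩ := Pool.Agent.KS6_67.Irr.infinite_spectrum κ hκ m g hm
    exact ⟨G, i1, H, h0, one_notMem hirr, hirr, quasi_of_irreducible hirr, h1, h2⟩

end Pool.Agent.Results.MP_696765_co.EveryChromaticNumber
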